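import Mathlib
import Pool.Agent.Run7.h610.CPDefs
import Pool.Agent.Run7.h610.CPExample

/-!
# Three commuting unital normal CP maps without any dilation

The definitions `Op`, `IsLinearOn`, `IsCP`, `IsNormal`, `IsAmp`, `IsStarEndo`, `IsDilation`,
`semigroupOf` are in `Pool/Agent/Run7/h610/CPDefs.lean`.
-/

open Run7.h610.CPD

namespace Pool.Agent.Results.MP_0a86e9_an.NoDilation

universe v

/-- There are a four-dimensional Hilbert space `H`, a von Neumann algebra `A ⊆ B(H)` and three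
commuting unital normal (contractive) completely positive maps `T₁, T₂, T₃` of `A` such that the
semigroup `T_s = T₁^{s₁} T₂^{s₂} T₃^{s₃}` over `ℕ³` has no dilation `(p, K, B, θ)` whatsoever. -/
theorem result : ∃ (H : Type) (_ : NormedAddCommGroup H) (_ : InnerProductSpace ℂ H)
    (_ : CompleteSpace H) (A : VonNeumannAlgebra H) (T : Fin 3 → Op H → Op H),
    Module.finrank ℂ H = 4 ∧
    (∀ i, IsLinearOn A (T i)) ∧
    (∀ i j, ∀ a ∈ A, T i (T j a) = T j (T i a)) ∧
    (∀ i, T i 1 = 1) ∧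
    (∀ i, IsNormal A (T i)) ∧
    (∀ i, IsCP A (T i)) ∧
    (∀ i, ∀ a ∈ A, ‖T i a‖ ≤ ‖a‖) ∧
    ∀ (K : Type v) [NormedAddCommGroup K] [InnerProductSpace ℂ K] [CompleteSpace K]
      (V : H →ₗᵢ[ℂ] K) (p : Op K) (B : VonNeumannAlgebra K) (θ : (Fin 3 → ℕ) → Op K → Op K),
      ¬ IsDilation A (semigroupOf T) V p B θ :=
  ⟨H4, inferInstance, inferInstance, inferInstance, topVN H4, TT, by simp, TT_linear,
    fun i j a _ => TT_comm i j a, TT_one, TT_normal, TT_cp,
    fun i a _ => TT_norm i a, fun K _ _ _ V p B θ D => no_dilation K V p B θ D⟩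

end Pool.Agent.Results.MP_0a86e9_an.NoDilation
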